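import Pool.Agent.helper84.QI.Spec

set_option autoImplicit false

namespace Pool.Agent.QI

theorem SWP_iff {G : Type} [Group G] (a b g : G) : g ∈ Bad b a ↔ g⁻¹ ∈ Bad a b := by
  have h1 : Subgroup.closure ({b, g⁻¹ * a * g} : Set G) =
      (Subgroup.closure ({a, (g⁻¹)⁻¹ * b * g⁻¹} : Set G)).map (MulAut.conj g⁻¹).toMonoidHom := by
    rw [MonoidHom.map_closure]
    congr 1
    rw [Set.image_pair, Set.pair_comm]
    congr 1
    · simp [mul_assoc]
    · simp [mul_assoc]
  show (Subgroup.closure ({b, g⁻¹ * a * g} : Set G) : Set G).Infinite ↔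
    (Subgroup.closure ({a, (g⁻¹)⁻¹ * b * g⁻¹} : Set G) : Set G).Infinite
  rw [h1, Subgroup.coe_map]
  exact Set.infinite_image_iff ((MulAut.conj g⁻¹).injective.injOn)

theorem SWP : SWP_stmt := by
  intro G _ a b
  refine ⟨fun g => SWP_iff a b g, fun h => ⟨?_, h.inf, ?_⟩⟩
  · rw [Set.pair_comm]
    exact h.gen
  · have h2 : Bad b a = (fun g : G => g⁻¹) ⁻¹' (Bad a b) := by
      ext g
      exact SWP_iff a b g
    rw [h2]
    exact h.fin.preimage (inv_injective.injOn)

end Pool.Agent.QI
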